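import Pool.Agent.TH609.E3.Stm
import Pool.Agent.H337R2.LZ.D3
import Pool.Agent.H336R2.HD.A1
import Pool.Agent.H336R2.HD.A3
import Pool.Agent.H336R2.HD.D1

/-!
# p-adic size of the Hankel determinant (project Z3, tasks D3, D3l)
-/

set_option autoImplicit false

open Polynomial Pool.Agent.H337R2

namespace Pool.Agent.TH609.E3.W125

open Pool.Agent.TH609.E3

noncomputable section

/-- the exponent depends only on the class -/
lemma D3_eF_mod (n p k : ℕ) : eF n p (k % p) = eF n p k := by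
  unfold eF
  have h : (k % p) % p = k % p := Nat.mod_mod _ _
  rw [Pool.Agent.H574R2.D3.D2_cnt_congr (A := 1) (B := 3 * n) h,
    Pool.Agent.H574R2.D3.D2_cnt_congr (A := 1) (B := 5 * n) h,
    Pool.Agent.H574R2.D3.D2_cnt_congr (A := 4 * n + 1) (B := 12 * n) h]

/-- the greedy choice of classes -/
lemma D3_pick2 (S : Finset ℕ) (c : ℕ → ℤ) (μ : ℤ) (m : ℕ) :
    ∃ (κ : ℕ → ℕ) (s : ℕ → ℤ), (∀ i, μ ≤ s i) ∧
      (∑ i ∈ Finset.range m, s i ≤ m * μ + ∑ k ∈ S, TT (c k - μ)) ∧
      ∀ k ∈ S, ∀ i, c k - 2 * (((Finset.range i).filter fun l => κ l = k).card : ℤ) ≤ s i := by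
  rcases S.eq_empty_or_nonempty with hS0 | hS0
  · refine ⟨fun _ => 0, fun _ => μ, fun _ => le_rfl, ?_, ?_⟩
    · rw [hS0, Finset.sum_empty, add_zero, Finset.sum_const, Finset.card_range, nsmul_eq_mul]
    · intro k hk
      rw [hS0] at hk
      exact absurd hk (Finset.notMem_empty k)
  · obtain ⟨κ, s, -, h2, h3, h4⟩ := Pool.Agent.H336R2.HD.D1_greedy S hS0 c μ m
    exact ⟨κ, s, h2, h3, h4⟩

theorem D3_of (hC2 : StC2) : StD3 := by
  intro n p _ hn hp2 q x hx m μ S _ h
  have hpp : p.Prime := Fact.out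
  have hp0 : (0 : ℚ) < p := by exact_mod_cast hpp.pos
  have hp1 : (1 : ℚ) ≤ p := by exact_mod_cast hpp.one_le
  obtain ⟨κ, s, hs1, hs2, hs3⟩ := D3_pick2 S (fun k => 1 - eF n p k) μ m
  have hmat : padicNorm p (Matrix.of fun i j : Fin m =>
      (q : ℚ) * NL n x (Pool.Agent.LZ.D3_ND κ i * Pool.Agent.LZ.D3_ND κ j)).det ≤
      ∏ i ∈ Finset.range m, (p : ℚ) ^ (s i) := by
    refine Pool.Agent.H336R2.HD.A3_padic_det p m _ (fun i => (p : ℚ) ^ (s i))
      (fun i => by positivity) fun i j => ?_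
    rw [Matrix.of_apply, NL_apply]
    have hW : padicNorm p ((q : ℚ) * xf n x (PF n *
        (Pool.Agent.LZ.D3_ND κ i * Pool.Agent.LZ.D3_ND κ j))) ≤ (p : ℚ) ^ ((s i + s j) / 2) := by
      refine hC2 hn hp2 q x hx _ ((p : ℚ) ^ ((s i + s j) / 2)) (by positivity)
        (fun k => (p : ℚ)⁻¹ ^ ((Finset.range i.1).filter fun l => κ l = k % p).card *
          (p : ℚ)⁻¹ ^ ((Finset.range j.1).filter fun l => κ l = k % p).card)
        (fun k => by positivity) (fun k hk => ?_) (fun k hk => ?_) (fun k hk => ?_)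
      · exact Pool.Agent.LZ.D3_NN_PB p k κ κ i.1 j.1
      · exact Pool.Agent.LZ.D3_NN_PB1 p 1 le_rfl k κ κ i.1 j.1
      · rcases h k hk with h1 | h1
        · left
          have h2 := hs3 _ h1 i
          have h3 := hs3 _ h1 j
          rw [D3_eF_mod] at h2 h3
          set a := ((Finset.range i.1).filter fun l => κ l = k % p).card
          set b := ((Finset.range j.1).filter fun l => κ l = k % p).card
          have e : (p : ℚ) ^ (1 - eF n p k) * ((p : ℚ)⁻¹ ^ a * (p : ℚ)⁻¹ ^ b) =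
              (p : ℚ) ^ (1 - eF n p k - a - b : ℤ) := by
            generalize 1 - eF n p k = z
            rw [zpow_sub₀ hp0.ne', zpow_sub₀ hp0.ne', zpow_natCast, zpow_natCast,
              inv_pow, inv_pow, div_eq_mul_inv, div_eq_mul_inv, mul_assoc]
          rw [e]
          refine zpow_le_zpow_right₀ hp1 ?_
          omega
        · right
          refine ⟨h1.1.trans (zpow_le_zpow_right₀ hp1 ?_), h1.2⟩
          have h2 := hs1 i
          have h3 := hs1 j
          omega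
    calc padicNorm p ((q : ℚ) * xf n x (PF n *
          (Pool.Agent.LZ.D3_ND κ i * Pool.Agent.LZ.D3_ND κ j))) ^ 2
        ≤ ((p : ℚ) ^ ((s i + s j) / 2)) ^ 2 := pow_le_pow_left₀ (padicNorm.nonneg _) hW 2
      _ = (p : ℚ) ^ ((s i + s j) / 2 * 2) := by
          rw [← zpow_natCast, ← zpow_mul]
          rfl
      _ ≤ (p : ℚ) ^ (s i + s j) := zpow_le_zpow_right₀ hp1 (by omega)
      _ = (p : ℚ) ^ (s i) * (p : ℚ) ^ (s j) := zpow_add₀ hp0.ne' _ _
  have hdet : (Matrix.of fun i j : Fin m => (q : ℚ) * NL n x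
      (Pool.Agent.LZ.D3_ND κ i * Pool.Agent.LZ.D3_ND κ j)).det = (q : ℚ) ^ m * DET n x m := by
    have h1 : (Matrix.of fun i j : Fin m => (q : ℚ) * NL n x
        (Pool.Agent.LZ.D3_ND κ i * Pool.Agent.LZ.D3_ND κ j)) =
        (q : ℚ) • (Matrix.of fun i j : Fin m => NL n x
          (Pool.Agent.LZ.D3_ND κ i * Pool.Agent.LZ.D3_ND κ j)) := by
      ext i j
      simp
    rw [h1, Matrix.det_smul, Fintype.card_fin,
      Pool.Agent.H336R2.HD.A1_det_monic (NL n x) m (Pool.Agent.LZ.D3_ND κ)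
        (fun i _ => Pool.Agent.LZ.D3_ND_monic κ i)]
    rfl
  rw [← hdet]
  refine le_trans hmat ?_
  rw [Pool.Agent.H574R2.D3.D3_prod_zpow (p : ℚ) hp0.ne' s m]
  exact zpow_le_zpow_right₀ hp1 hs2

/-- the constant is an integer -/
lemma D3_cF (n p : ℕ) [Fact p.Prime] : padicNorm p (cF n) ≤ 1 := by
  have h1 : (3 * n).factorial * (5 * n).factorial ∣ (8 * n).factorial ^ 2 := by
    rw [pow_two]
    exact mul_dvd_mul (Nat.factorial_dvd_factorial (by omega))
      (Nat.factorial_dvd_factorial (by omega))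
  obtain ⟨c, hc⟩ := h1
  have h : cF n = (((c : ℕ) : ℤ) : ℚ) := by
    unfold cF
    rw [hc]
    have h2 : (((3 * n).factorial * (5 * n).factorial : ℕ) : ℚ) ≠ 0 := by
      exact_mod_cast mul_ne_zero (Nat.factorial_ne_zero _) (Nat.factorial_ne_zero _)
    rw [Nat.cast_mul ((3 * n).factorial * (5 * n).factorial) c, mul_div_cancel_left₀ _ h2]
    push_cast
    rfl
  rw [h]
  exact padicNorm.of_int _

theorem D3l_of (hC2 : StC2) : StD3l := by
  intro n p _ hn hp2 hp q x hx m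
  have h := D3_of hC2 hn hp2 q x hx m 0 ∅ (Finset.empty_subset _) (by
    intro k hk
    right
    rw [zpow_zero]
    have h1 := Finset.mem_Icc.1 hk
    refine ⟨D3_cF n p, by omega, fun k' hk' hne hd => ?_⟩
    have h2 := Finset.mem_Icc.1 hk'
    have h3 : ((k' : ℤ) - k) ≠ 0 := by omega
    have h4 := Int.le_of_dvd (by positivity : 0 < |(k' : ℤ) - k|) ((dvd_abs _ _).2 hd)
    rcases abs_cases ((k' : ℤ) - k) with ⟨h5, -⟩ | ⟨h5, -⟩
    · rw [h5] at h4; omega
    · rw [h5] at h4; omega)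
  simpa using h

end

end Pool.Agent.TH609.E3.W125
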